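import Pool.Agent.H17.SD.Targets

/-!
Module CRT: the certificate for the smoothness of the curve.
-/

set_option autoImplicit false

namespace Pool.Agent.H14.SFG

open MvPolynomial SC Pool.Agent.H27.LV
open Pool.Agent.H92.SF Pool.Agent.H3.SF Pool.Agent.H17.SD

/-- the chain rule -/
theorem deriv_aeval {k F σ : Type} [Field k] [Field F] [Algebra k F] [Fintype σ]
    (X : σ → F) (D : Derivation k F F) (p : MvPolynomial σ k) :
    D (aeval X p) = ∑ s, aeval X (pderiv s p) * D (X s) := by
  classical
  induction p using MvPolynomial.induction_on with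
  | C a =>
    rw [algHom_C, Derivation.map_algebraMap]
    symm
    refine Finset.sum_eq_zero fun s _ => ?_
    rw [pderiv_C, map_zero, zero_mul]
  | add p q hp hq =>
    rw [map_add, map_add, hp, hq, ← Finset.sum_add_distrib]
    refine Finset.sum_congr rfl fun s _ => ?_
    rw [map_add, map_add, add_mul]
  | mul_X p i hp =>
    rw [map_mul, aeval_X, Derivation.leibniz, hp, smul_eq_mul, smul_eq_mul, Finset.mul_sum]
    have h3 : ∀ s, aeval X (pderiv s (p * MvPolynomial.X i)) * D (X s) =
        aeval X p * (aeval X (pderiv s (MvPolynomial.X i : MvPolynomial σ k)) *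
          D (X s)) + X i * (aeval X (pderiv s p) * D (X s)) := by
      intro s
      rw [Derivation.leibniz, smul_eq_mul, smul_eq_mul, map_add, map_mul, map_mul, aeval_X]
      ring
    rw [Finset.sum_congr rfl fun s _ => h3 s, Finset.sum_add_distrib, ← Finset.mul_sum]
    congr 2
    rw [Finset.sum_eq_single i]
    · rw [pderiv_X_self, map_one, one_mul]
    · intro s _ hs
      rw [pderiv_X_of_ne hs.symm, map_zero, zero_mul, mul_zero]
    · intro h
      exact absurd (Finset.mem_univ _) h

/-- Euler's identity for the values -/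
theorem euler_val {k F σ : Type} [Field k] [Field F] [Algebra k F] [Fintype σ]
    (X : σ → F) (u : Fin 3 → F) (dd : Fin 3 → Derivation k F F)
    (hX : ∀ s, eu u dd (X s) = X s) (m : ℕ) (G : MvPolynomial σ k) (hG : G.IsHomogeneous m) :
    ∑ l, u l * dd l (aeval X G) = (m : F) * aeval X G := by
  have h1 : eu u dd (aeval X G) = ∑ l, u l * dd l (aeval X G) := by
    unfold eu
    simp [Fin.sum_univ_three]
  rw [← h1, deriv_aeval]
  have h3 := congrArg (aeval X) hG.sum_X_mul_pderiv
  rw [map_sum, map_nsmul] at h3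
  rw [← nsmul_eq_mul, ← h3]
  refine Finset.sum_congr rfl fun s _ => ?_
  rw [map_mul, aeval_X, hX, mul_comm]

theorem pf_CRT (_h1 : T_ITA) (h2 : T_GMX) (h3 : T_MNZ) : T_CRT := by
  classical
  intro k F σ _ _ _ _ _ _ X u dd m G _ hind hul hXi hdd hXe hm hG hsm
  -- coefficients
  have hc : ∀ l, ∃ c : σ → k, ∑ s, c s • X s = u l := fun l =>
    (Submodule.mem_span_range_iff_exists_fun k).1 (hul l)
  choose c hcu using hc
  have hcu' : ∀ l, u l = ∑ s, c l s • X s := fun l => (hcu l).symm
  -- the number of the variables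
  have hcard : 3 ≤ Fintype.card σ := by
    have hfd : Module.Finite k (Submodule.span k (Set.range X)) :=
      FiniteDimensional.span_of_finite k (Set.finite_range X)
    have h4 : LinearIndependent k
        (fun l => (⟨u l, hul l⟩ : Submodule.span k (Set.range X))) := by
      refine LinearIndependent.of_comp (Submodule.span k (Set.range X)).subtype ?_
      exact hind.linearIndependent
    have h5 := h4.fintype_card_le_finrank
    have h6 : Set.finrank k (Set.range X) ≤ Fintype.card σ := finrank_range_le_card X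
    rw [Fintype.card_fin] at h5
    exact h5.trans h6
  obtain ⟨r, hr⟩ : ∃ r, Fintype.card σ = r + 3 := ⟨Fintype.card σ - 3, by omega⟩
  obtain ⟨hM1, hM2⟩ := h2 k F σ X u dd c r hr hcu' hdd
  -- integral elements
  have hui : ∀ l, Itg k u (u l) := by
    intro l
    have h := ((aeval u : MvPolynomial (Fin 3) k →ₐ[k] F) :
      MvPolynomial (Fin 3) k →+* F).isIntegralElem_map (x := MvPolynomial.X l)
    simpa [Itg] using h
  have hXp : ∀ p : MvPolynomial σ k, Itg k u (aeval X p) := by
    intro p
    have hle : Algebra.adjoin k (Set.range X) ≤ Bb k u := by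
      refine Algebra.adjoin_le ?_
      rintro b ⟨s, rfl⟩
      exact hXi s
    apply hle
    rw [Algebra.adjoin_range_eq_range_aeval]
    exact ⟨p, rfl⟩
  -- the ideal
  obtain ⟨M, hMdef⟩ : ∃ M : (Fin r → MvPolynomial σ k) → (Fin (r + 1) → σ) → MvPolynomial σ k,
      M = fun f q => (Matrix.of fun i j =>
        pderiv (q j) ((Fin.snoc f G : Fin (r + 1) → MvPolynomial σ k) i)).det := ⟨_, rfl⟩
  set S : Set (MvPolynomial σ k) := {f | aeval X f = 0} ∪ {G} ∪
    {g | ∃ f q, (∀ i, aeval X (f i) = 0) ∧ g = M f q} with hS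
  have hzero : ∀ s ∈ zeroLocus k (Ideal.span S), s = 0 := by
    intro s hs
    rw [mem_zeroLocus_iff] at hs
    have hs' : ∀ p ∈ Ideal.span S, eval s p = 0 := by
      intro p hp
      rw [← coe_aeval_eq_eval]
      exact hs p hp
    by_contra hs0
    obtain ⟨f, q, hf, hne⟩ := h3 k F σ X r hr hM1 G hsm s hs0
      (fun f hf => hs' f (Ideal.subset_span (Or.inl (Or.inl hf))))
      (hs' G (Ideal.subset_span (Or.inl (Or.inr rfl))))
    apply hne
    have h4 : M f q ∈ Ideal.span S := Ideal.subset_span (Or.inr ⟨f, q, hf, rfl⟩)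
    have h5 := hs' _ h4
    rw [hMdef] at h5
    exact h5
  -- membership
  have hmem : ∀ g ∈ Ideal.span S, ∃ e : Fin 3 → F, (∀ l, Itg k u (e l)) ∧
      aeval X g = ∑ l, e l * dd l (aeval X G) := by
    intro g hg
    induction hg using Submodule.span_induction with
    | mem g hg =>
      rcases hg with (hg | hg) | ⟨f, q, hf, rfl⟩
      · refine ⟨fun _ => 0, fun l => (Bb k u).zero_mem, ?_⟩
        have hg' : aeval X g = 0 := hg
        rw [hg']
        simp
      · have hg' : g = G := hg
        rw [hg']
        refine ⟨fun l => algebraMap k F (m : k)⁻¹ * u l,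
          fun l => (Bb k u).mul_mem ((Bb k u).algebraMap_mem _) (hui l), ?_⟩
        have h4 := euler_val X u dd hXe m G hG
        have hm0 : (m : k) ≠ 0 := by
          have : m ≠ 0 := by omega
          exact_mod_cast this
        have h5 : algebraMap k F (m : k)⁻¹ * (m : F) = 1 := by
          rw [← map_natCast (algebraMap k F) m, ← map_mul, inv_mul_cancel₀ hm0, map_one]
        calc aeval X G = algebraMap k F (m : k)⁻¹ * ((m : F) * aeval X G) := by
              rw [← mul_assoc, h5, one_mul]
          _ = algebraMap k F (m : k)⁻¹ * ∑ l, u l * dd l (aeval X G) := by rw [h4]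
          _ = ∑ l, algebraMap k F (m : k)⁻¹ * u l * dd l (aeval X G) := by
              rw [Finset.mul_sum]
              exact Finset.sum_congr rfl fun l _ => by ring
      · refine ⟨fun l => aeval X (Matrix.of fun i j => pderiv (q j)
          ((Fin.snoc f (∑ s, C (c l s) * MvPolynomial.X s) :
            Fin (r + 1) → MvPolynomial σ k) i)).det, fun l => hXp _, ?_⟩
        rw [hMdef]
        simp only
        rw [hM2 f hf G q]
        exact Finset.sum_congr rfl fun l _ => mul_comm _ _
    | zero =>
      refine ⟨fun _ => 0, fun l => (Bb k u).zero_mem, ?_⟩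
      rw [map_zero]
      simp
    | add g g' _ _ ih ih' =>
      obtain ⟨e, he, h4⟩ := ih
      obtain ⟨e', he', h5⟩ := ih'
      refine ⟨fun l => e l + e' l, fun l => (Bb k u).add_mem (he l) (he' l), ?_⟩
      rw [map_add, h4, h5, ← Finset.sum_add_distrib]
      exact Finset.sum_congr rfl fun l _ => by ring
    | smul h g _ ih =>
      obtain ⟨e, he, h4⟩ := ih
      refine ⟨fun l => aeval X h * e l, fun l => (Bb k u).mul_mem (hXp h) (he l), ?_⟩
      rw [smul_eq_mul, map_mul, h4, Finset.mul_sum]
      exact Finset.sum_congr rfl fun l _ => by ring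
  -- Nullstellensatz
  obtain ⟨U, hU⟩ : ∃ U : Fin 3 → MvPolynomial σ k,
      U = fun l => ∑ s, C (c l s) * MvPolynomial.X s := ⟨_, rfl⟩
  have hUX : ∀ l, aeval X (U l) = u l := by
    intro l
    rw [hU, hcu' l]
    simp only [map_sum, map_mul, aeval_X, algHom_C]
    exact Finset.sum_congr rfl fun s _ => (Algebra.smul_def _ _).symm
  have hrad : ∀ l, U l ∈ (Ideal.span S).radical := by
    intro l
    rw [← vanishingIdeal_zeroLocus_eq_radical (K := k), mem_vanishingIdeal_iff]
    intro s hs
    rw [hzero s hs, hU]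
    simp
  choose N hN using hrad
  refine ⟨∑ l, N l, fun i => ?_⟩
  have h4 : U i ^ (∑ l, N l) ∈ Ideal.span S :=
    Ideal.pow_mem_of_pow_mem _ (hN i) (Finset.single_le_sum (fun _ _ => Nat.zero_le _)
      (Finset.mem_univ i))
  obtain ⟨e, he, h5⟩ := hmem _ h4
  refine ⟨e, he, ?_⟩
  rw [← h5, map_pow, hUX]

end Pool.Agent.H14.SFG
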