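import Pool.Agent.H17.SD.Targets

/-!
Module FRC: the function field of a homogeneous prime ideal.
-/

set_option autoImplicit false

namespace Pool.Agent.H14.SFG

open MvPolynomial SC Pool.Agent.H27.LV
open Pool.Agent.H92.SF Pool.Agent.H3.SF Pool.Agent.H17.SD

theorem pf_FRC : T_FRC := by
  intro k σ _ _ I _ hI htr
  set A := MvPolynomial σ k ⧸ I with hA
  set X' : σ → FractionRing A := fun s : σ => algebraMap A (FractionRing A)
    (Ideal.Quotient.mk I (X s)) with hX
  have hae : ∀ f : MvPolynomial σ k, aeval X' f =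
      algebraMap A (FractionRing A) (Ideal.Quotient.mk I f) := by
    intro f
    have h : (aeval X' : MvPolynomial σ k →ₐ[k] FractionRing A) =
        (IsScalarTower.toAlgHom k A (FractionRing A)).comp (Ideal.Quotient.mkₐ k I) := by
      apply MvPolynomial.algHom_ext
      intro s
      rw [aeval_X]
      rfl
    rw [h]
    rfl
  have hz : ∀ f : MvPolynomial σ k, aeval X' f = 0 ↔ f ∈ I := by
    intro f
    rw [hae, FaithfulSMul.algebraMap_eq_zero_iff, Ideal.Quotient.eq_zero_iff_mem]
  refine ⟨?_, ?_, htr⟩
  · rw [eq_top_iff]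
    intro z _
    obtain ⟨a, b, hb, rfl⟩ := IsFractionRing.div_surjective (A := A) z
    obtain ⟨f, rfl⟩ := Ideal.Quotient.mk_surjective a
    obtain ⟨g, rfl⟩ := Ideal.Quotient.mk_surjective b
    rw [← hae, ← hae]
    have hmem : ∀ f : MvPolynomial σ k,
        aeval X' f ∈ IntermediateField.adjoin k (Set.range X') := by
      intro f
      have h1 : aeval X' f ∈ Algebra.adjoin k (Set.range X') := by
        rw [Algebra.adjoin_range_eq_range_aeval]
        exact ⟨f, rfl⟩
      exact IntermediateField.algebra_adjoin_le_adjoin k _ h1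
    exact div_mem (hmem f) (hmem g)
  · intro f hf d
    rw [hz] at hf ⊢
    exact hI f hf d

end Pool.Agent.H14.SFG
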